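import Mathlib
import Pool.Agent.H365R2.Circ.Upper

/-! The minimum number of circles determined by `n` points, for every `n ≥ 15`. -/

namespace Pool.Agent.Results.MP_1f1ca1_co.FifteenOrMore

open Pool.Agent.Helper543.PlaneC Pool.Agent.H365R2.Circ

lemma num (N : ℕ) (hN : 3 ≤ N) :
    N * (N - 1) / 2 - N / 2 + 1 = N.choose 2 + 1 - N / 2 ∧
    (N + 1 - 2) ^ 2 / 2 + 1 = N.choose 2 + 1 - N / 2 := by
  rw [Nat.choose_two_right]
  obtain ⟨a, ha | ha⟩ : ∃ a, N = 2 * a ∨ N = 2 * a + 1 := ⟨N / 2, by omega⟩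
  · subst ha
    obtain ⟨b, rfl⟩ : ∃ b, a = b + 2 := ⟨a - 2, by omega⟩
    have e1 : 2 * (b + 2) * (2 * (b + 2) - 1) / 2 = 2 * b * b + 7 * b + 6 := by
      have : 2 * (b + 2) * (2 * (b + 2) - 1) = 2 * (2 * b * b + 7 * b + 6) := by
        have : 2 * (b + 2) - 1 = 2 * b + 3 := by omega
        rw [this]; ring
      omega
    have e2 : (2 * (b + 2) + 1 - 2) ^ 2 / 2 = 2 * b * b + 6 * b + 4 := by
      have : (2 * (b + 2) + 1 - 2) ^ 2 = 2 * (2 * b * b + 6 * b + 4) + 1 := by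
        have : 2 * (b + 2) + 1 - 2 = 2 * b + 3 := by omega
        rw [this]; ring
      omega
    rw [e1, e2]
    generalize 2 * b * b = c
    constructor <;> omega
  · subst ha
    obtain ⟨b, rfl⟩ : ∃ b, a = b + 1 := ⟨a - 1, by omega⟩
    have e1 : (2 * (b + 1) + 1) * (2 * (b + 1) + 1 - 1) / 2 = 2 * b * b + 5 * b + 3 := by
      have : (2 * (b + 1) + 1) * (2 * (b + 1) + 1 - 1) = 2 * (2 * b * b + 5 * b + 3) := by
        have : 2 * (b + 1) + 1 - 1 = 2 * b + 2 := by omega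
        rw [this]; ring
      omega
    have e2 : (2 * (b + 1) + 1 + 1 - 2) ^ 2 / 2 = 2 * b * b + 4 * b + 2 := by
      have : (2 * (b + 1) + 1 + 1 - 2) ^ 2 = 2 * (2 * b * b + 4 * b + 2) := by
        have : 2 * (b + 1) + 1 + 1 - 2 = 2 * b + 2 := by omega
        rw [this]; ring
      omega
    rw [e1, e2]
    generalize 2 * b * b = c
    constructor <;> omega

/-- For every `n ≥ 15`, the least number of circles determined by `n` points of the plane that
are neither on a line nor on a circle is `C(n-1,2) + 1 - ⌊(n-1)/2⌋`. -/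
theorem result (n : ℕ) (hn : 15 ≤ n) :
    IsLeast {c : ℕ | ∃ P : Finset (EuclideanSpace ℝ (Fin 2)), P.card = n ∧
        ¬ Collinear ℝ (P : Set (EuclideanSpace ℝ (Fin 2))) ∧
        (¬ ∃ (x : EuclideanSpace ℝ (Fin 2)) (r : ℝ), 0 < r ∧
          (P : Set (EuclideanSpace ℝ (Fin 2))) ⊆ Metric.sphere x r) ∧
        {C : Set (EuclideanSpace ℝ (Fin 2)) |
          (∃ (x : EuclideanSpace ℝ (Fin 2)) (r : ℝ), 0 < r ∧ C = Metric.sphere x r) ∧
          3 ≤ ((P : Set (EuclideanSpace ℝ (Fin 2))) ∩ C).ncard}.ncard = c}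
      ((n - 1).choose 2 + 1 - (n - 1) / 2) := by
  obtain ⟨N, rfl⟩ : ∃ N, n = N + 1 := ⟨n - 1, by omega⟩
  have hlow : ∀ P : Finset Plane, P.card = N + 1 → Admissible (P : Set Plane) →
      N.choose 2 + 1 - N / 2 ≤ (Circles (P : Set Plane)).ncard := by
    intro P hP hA
    have h := lower P (by omega) hA
    rw [hP, (num N (by omega)).2] at h
    exact h
  have e : N + 1 - 1 = N := by omega
  rw [e]
  constructor
  · refine ⟨PP N, card_PP N, (admissible_PP N (by omega)).1, (admissible_PP N (by omega)).2, ?_⟩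
    apply le_antisymm
    · have h := ncard_le N
      rw [(num N (by omega)).1] at h
      exact h
    · exact hlow (PP N) (card_PP N) (admissible_PP N (by omega))
  · rintro c ⟨P, hP, h1, h2, rfl⟩
    exact hlow P hP ⟨h1, h2⟩

end Pool.Agent.Results.MP_1f1ca1_co.FifteenOrMore
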